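import Mathlib

/-!
# Gelfand numbers versus Hilbert numbers for operators on a Hilbert space, no oversampling
-/

namespace Pool.Agent.Results.MP_93c8fe_an.HilbertDomain

open scoped ENNReal lp InnerProductSpace
open Metric

/-- The real sequence space `ℓ₂`. -/
abbrev Ltwo : Type := lp (fun _ : ℕ => ℝ) 2

/-- The Gelfand numbers `c_n(S, F)`. -/
noncomputable def gelfand {X Y : Type*} [NormedAddCommGroup X] [NormedSpace ℝ X]
    [NormedAddCommGroup Y] [NormedSpace ℝ Y] (n : ℕ) (S : X →L[ℝ] Y) (F : Set X) : ℝ≥0∞ :=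
  ⨅ L : Fin n → (X →L[ℝ] ℝ), ⨆ (f ∈ F) (g ∈ F) (_ : ∀ k, L k f = L k g), ‖S f - S g‖ₑ / 2

/-- The Hilbert numbers `h_n(S, F)`. -/
noncomputable def hilbertNum {X Y : Type*} [NormedAddCommGroup X] [NormedSpace ℝ X]
    [NormedAddCommGroup Y] [NormedSpace ℝ Y] (n : ℕ) (S : X →L[ℝ] Y) (F : Set X) : ℝ≥0∞ :=
  ⨆ (B : Y →L[ℝ] Ltwo) (_ : ‖B‖ ≤ 1) (A : Ltwo →L[ℝ] X) (x ∈ F)
    (_ : ∀ z ∈ closedBall (0 : Ltwo) 1, A z + x ∈ F),
    gelfand n (B.comp (S.comp A)) (closedBall (0 : Ltwo) 1)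

section lower

variable {n : ℕ}

theorem exists_adapted (n : ℕ) (N : ∀ k : ℕ, Fin k → (EuclideanSpace ℝ (Fin n) →ₗ[ℝ] ℝ))
    (m : ℕ) (hm : m ≤ n) :
    ∃ w : ℕ → EuclideanSpace ℝ (Fin n),
      (∀ i < m, ∀ j < m, ⟪w i, w j⟫_ℝ = if i = j then 1 else 0) ∧
      ∀ i < m, ∀ l : Fin (n - 1 - i), N (n - 1 - i) l (w i) = 0 := by
  induction m with
  | zero => exact ⟨fun _ => 0, by simp, by simp⟩
  | succ m ih =>
    obtain ⟨w, h1, h2⟩ := ih (by omega)
    let Φ : EuclideanSpace ℝ (Fin n) →ₗ[ℝ] (Fin (n - 1 - m) → ℝ) × (Fin m → ℝ) :=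
      (LinearMap.pi (N (n - 1 - m))).prod
        (LinearMap.pi (fun i : Fin m => (innerₛₗ ℝ (w i))))
    have hker : LinearMap.ker Φ ≠ ⊥ := by
      apply LinearMap.ker_ne_bot_of_finrank_lt
      simp
      omega
    obtain ⟨z, hz, hz0⟩ := (Submodule.ne_bot_iff _).mp hker
    rw [LinearMap.mem_ker] at hz
    have hza : ∀ l, N (n - 1 - m) l z = 0 := fun l => congrFun (congrArg Prod.fst hz) l
    have hzb : ∀ i : Fin m, ⟪w i, z⟫_ℝ = 0 := fun i => congrFun (congrArg Prod.snd hz) i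
    have hzn : ‖z‖ ≠ 0 := norm_ne_zero_iff.mpr hz0
    refine ⟨Function.update w m (‖z‖⁻¹ • z), ?_, ?_⟩
    · intro i hi j hj
      rcases Nat.lt_succ_iff_lt_or_eq.mp hi with hi' | rfl <;>
        rcases Nat.lt_succ_iff_lt_or_eq.mp hj with hj' | rfl
      · rw [Function.update_of_ne hi'.ne, Function.update_of_ne hj'.ne]
        exact h1 i hi' j hj'
      · rw [Function.update_of_ne hi'.ne, Function.update_self, inner_smul_right,
          hzb ⟨i, hi'⟩, mul_zero, if_neg hi'.ne]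
      · rw [Function.update_of_ne hj'.ne, Function.update_self, inner_smul_left,
          real_inner_comm, hzb ⟨j, hj'⟩, mul_zero, if_neg hj'.ne']
      · rw [Function.update_self, inner_smul_left, inner_smul_right, real_inner_self_eq_norm_sq,
          if_pos rfl]
        simp only [conj_trivial]
        field_simp
    · intro i hi l
      rcases Nat.lt_succ_iff_lt_or_eq.mp hi with hi' | rfl
      · rw [Function.update_of_ne hi'.ne]
        exact h2 i hi' l
      · rw [Function.update_self, map_smul, hza l, smul_zero]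

theorem det_le_prod (f : EuclideanSpace ℝ (Fin n) →ₗ[ℝ] EuclideanSpace ℝ (Fin n))
    (v : OrthonormalBasis (Fin n) ℝ (EuclideanSpace ℝ (Fin n))) :
    |LinearMap.det f| ≤ ∏ i, ‖f (v i)‖ := by
  haveI : Fact (Module.finrank ℝ (EuclideanSpace ℝ (Fin n)) = n) := ⟨by simp⟩
  let b := EuclideanSpace.basisFun (Fin n) ℝ
  let o := b.toBasis.orientation
  have h1 : |o.volumeForm (f ∘ v)| ≤ ∏ i, ‖f (v i)‖ := o.abs_volumeForm_apply_le _
  have h2 := o.volumeForm_robust' b (f ∘ v)
  have h3 := o.volumeForm_robust' b v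
  have h4 := o.abs_volumeForm_apply_of_orthonormal v
  have h5 := Module.Basis.det_comp b.toBasis f v
  rw [h2, h5, abs_mul, ← h3, h4, mul_one] at h1
  exact h1

theorem gelfand_lt_top {X Y : Type*} [NormedAddCommGroup X] [NormedSpace ℝ X]
    [NormedAddCommGroup Y] [NormedSpace ℝ Y] (k : ℕ) (S : X →L[ℝ] Y) :
    gelfand k S (closedBall (0 : X) 1) ≠ ∞ := by
  have h : gelfand k S (closedBall (0 : X) 1) ≤ ‖S‖ₑ := by
    refine le_trans (iInf_le _ (fun _ => 0)) ?_
    refine iSup_le fun f => iSup_le fun hf => iSup_le fun g => iSup_le fun hg =>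
      iSup_le fun _ => ?_
    rw [mem_closedBall_zero_iff] at hf hg
    rw [← map_sub]
    apply ENNReal.div_le_of_le_mul
    have h1 : ‖S (f - g)‖ ≤ ‖S‖ * 2 := by
      refine le_trans (S.le_opNorm _) ?_
      have : ‖f - g‖ ≤ 2 := by
        have := norm_sub_le f g
        linarith
      gcongr
    rw [← ofReal_norm, ← ofReal_norm]
    calc ENNReal.ofReal ‖S (f - g)‖ ≤ ENNReal.ofReal (‖S‖ * 2) := ENNReal.ofReal_le_ofReal h1
      _ = ENNReal.ofReal ‖S‖ * 2 := by
        rw [ENNReal.ofReal_mul (norm_nonneg _)]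
        norm_num
  exact ne_top_of_le_ne_top (by simp) h

theorem det_le_gelfand (T : Ltwo →L[ℝ] Ltwo)
    (f : EuclideanSpace ℝ (Fin n) →ₗ[ℝ] EuclideanSpace ℝ (Fin n))
    (J : EuclideanSpace ℝ (Fin n) →ₗᵢ[ℝ] Ltwo) (hJ : ∀ v, T (J v) = J (f v)) :
    ENNReal.ofReal |LinearMap.det f| ≤
      ∏ k ∈ Finset.range n, gelfand k T (closedBall (0 : Ltwo) 1) := by
  have hmain : ∀ δ : ℝ≥0∞, 0 < δ → ENNReal.ofReal |LinearMap.det f| ≤
      ∏ k ∈ Finset.range n, (gelfand k T (closedBall (0 : Ltwo) 1) + δ) := by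
    intro δ hδ
    have hex : ∀ k : ℕ, ∃ L : Fin k → (Ltwo →L[ℝ] ℝ),
        (⨆ (f ∈ closedBall (0 : Ltwo) 1) (g ∈ closedBall (0 : Ltwo) 1)
          (_ : ∀ k, L k f = L k g), ‖T f - T g‖ₑ / 2) <
        gelfand k T (closedBall (0 : Ltwo) 1) + δ := by
      intro k
      exact iInf_lt_iff.mp (ENNReal.lt_add_right (gelfand_lt_top k T) hδ.ne')
    choose L hL using hex
    obtain ⟨w, h1, h2⟩ := exists_adapted n
      (fun k l => ((L k l).toLinearMap.comp J.toLinearMap)) n le_rfl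
    -- reorder
    let v : Fin n → EuclideanSpace ℝ (Fin n) := fun k => w (n - 1 - (k : ℕ))
    have hv : Orthonormal ℝ v := by
      rw [orthonormal_iff_ite]
      intro i j
      have hi := i.2
      have hj := j.2
      show ⟪w (n - 1 - (i : ℕ)), w (n - 1 - (j : ℕ))⟫_ℝ = _
      rw [h1 _ (by omega) _ (by omega)]
      by_cases hij : i = j
      · simp [hij]
      · have : (i : ℕ) ≠ (j : ℕ) := fun h => hij (Fin.ext h)
        rw [if_neg hij, if_neg (by omega)]
    have hcard : Fintype.card (Fin n) = Module.finrank ℝ (EuclideanSpace ℝ (Fin n)) := by simp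
    let bv : OrthonormalBasis (Fin n) ℝ (EuclideanSpace ℝ (Fin n)) :=
      OrthonormalBasis.mk hv (by
        have := hv.linearIndependent.span_eq_top_of_card_eq_finrank' hcard
        rw [this])
    have hbv : ∀ i, bv i = v i := fun i => by simp [bv]
    have hfin : ∀ k : Fin n, ‖f (v k)‖ₑ ≤ gelfand k T (closedBall (0 : Ltwo) 1) + δ := by
      intro k
      have hk := k.2
      have hN : ∀ l : Fin (k : ℕ), L k l (J (v k)) = 0 := by
        have h3 := h2 (n - 1 - (k : ℕ)) (by omega)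
        have h4 : n - 1 - (n - 1 - (k : ℕ)) = (k : ℕ) := by omega
        rw [h4] at h3
        exact h3
      have hnorm : ‖J (v k)‖ = 1 := by rw [J.norm_map]; exact hv.1 k
      refine le_trans ?_ (hL k).le
      have h5 : J (v k) ∈ closedBall (0 : Ltwo) 1 := by
        rw [mem_closedBall_zero_iff, hnorm]
      have h6 : -J (v k) ∈ closedBall (0 : Ltwo) 1 := by
        rw [mem_closedBall_zero_iff, norm_neg, hnorm]
      have h7 : ‖f (v k)‖ₑ = ‖T (J (v k)) - T (-J (v k))‖ₑ / 2 := by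
        rw [map_neg, sub_neg_eq_add, hJ, ← two_smul ℝ (J (f (v k))), enorm_smul]
        have h8 : ‖J (f (v k))‖ₑ = ‖f (v k)‖ₑ := by
          rw [← ofReal_norm, ← ofReal_norm, J.norm_map]
        rw [h8]
        have h9 : ‖(2 : ℝ)‖ₑ = 2 := by
          rw [← ofReal_norm]; norm_num
        rw [h9, mul_comm, ENNReal.mul_div_cancel_right (by norm_num) (by norm_num)]
      rw [h7]
      refine le_trans ?_ (le_iSup₂ (f := fun f (_ : f ∈ closedBall (0 : Ltwo) 1) =>
        ⨆ (g ∈ closedBall (0 : Ltwo) 1) (_ : ∀ l, L k l f = L k l g), ‖T f - T g‖ₑ / 2)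
        (J (v k)) h5)
      refine le_trans ?_ (le_iSup₂ (f := fun g (_ : g ∈ closedBall (0 : Ltwo) 1) =>
        ⨆ (_ : ∀ l, L k l (J (v k)) = L k l g), ‖T (J (v k)) - T g‖ₑ / 2)
        (-J (v k)) h6)
      exact le_iSup (f := fun (_ : ∀ l, L k l (J (v k)) = L k l (-J (v k))) =>
        ‖T (J (v k)) - T (-J (v k))‖ₑ / 2) (fun l => by rw [map_neg, hN l, neg_zero])
    calc ENNReal.ofReal |LinearMap.det f| ≤ ENNReal.ofReal (∏ i, ‖f (bv i)‖) :=
          ENNReal.ofReal_le_ofReal (det_le_prod f bv)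
      _ = ∏ i, ‖f (v i)‖ₑ := by
          rw [ENNReal.ofReal_prod_of_nonneg (fun _ _ => norm_nonneg _)]
          apply Finset.prod_congr rfl
          intro i _
          rw [hbv, ofReal_norm]
      _ ≤ ∏ k : Fin n, (gelfand k T (closedBall (0 : Ltwo) 1) + δ) :=
          Finset.prod_le_prod' (fun k _ => hfin k)
      _ = ∏ k ∈ Finset.range n, (gelfand k T (closedBall (0 : Ltwo) 1) + δ) :=
          Fin.prod_univ_eq_prod_range (fun k => gelfand k T (closedBall (0 : Ltwo) 1) + δ) n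
  have hlim : Filter.Tendsto (fun δ : ℝ≥0∞ => ∏ k ∈ Finset.range n,
      (gelfand k T (closedBall (0 : Ltwo) 1) + δ)) (nhdsWithin 0 (Set.Ioi 0))
      (nhds (∏ k ∈ Finset.range n, (gelfand k T (closedBall (0 : Ltwo) 1) + 0))) := by
    apply ENNReal.tendsto_finsetProd_of_ne_top
    · intro k _
      exact (tendsto_const_nhds.add (Filter.tendsto_id.mono_left nhdsWithin_le_nhds))
    · intro k _
      simpa using gelfand_lt_top k T
  simp only [add_zero] at hlim
  haveI : (nhdsWithin (0 : ℝ≥0∞) (Set.Ioi 0)).NeBot := by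
    apply nhdsGT_neBot_of_exists_gt
    exact ⟨1, one_pos⟩
  exact ge_of_tendsto hlim (Filter.eventually_of_mem self_mem_nhdsWithin hmain)

end lower

section triangular

variable {X Y : Type*} [NormedAddCommGroup X] [InnerProductSpace ℝ X] [CompleteSpace X]
  [NormedAddCommGroup Y] [NormedSpace ℝ Y]

theorem exists_triangular (S : X →L[ℝ] Y) (n : ℕ) (r : ℝ) (hr : 0 ≤ r)
    (hc : ENNReal.ofReal r < gelfand (n - 1) S (closedBall (0 : X) 1)) (m : ℕ) (hm : m ≤ n) :
    ∃ (x : ℕ → X) (y : ℕ → (Y →L[ℝ] ℝ)),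
      (∀ i < m, ∀ j < m, ⟪x i, x j⟫_ℝ = if i = j then 1 else 0) ∧
      (∀ i < m, ‖y i‖ ≤ 1) ∧ (∀ i < m, r ≤ y i (S (x i))) ∧
      (∀ i < m, ∀ z : X, (∀ j ≤ i, ⟪x j, z⟫_ℝ = 0) → y i (S z) = 0) := by
  induction m with
  | zero => exact ⟨fun _ => 0, fun _ => 0, by simp, by simp, by simp, by simp⟩
  | succ m ih =>
    obtain ⟨x, y, h1, h2, h3, h4⟩ := ih (by omega)
    -- the functionals used at this step
    let L : Fin (n - 1) → (X →L[ℝ] ℝ) := fun k =>
      if (k : ℕ) < m then innerSL ℝ (x k) else 0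
    have hlt := lt_of_lt_of_le hc (iInf_le _ L)
    obtain ⟨f, hf⟩ := lt_iSup_iff.mp hlt
    obtain ⟨hfB, hf⟩ := lt_iSup_iff.mp hf
    obtain ⟨g, hg⟩ := lt_iSup_iff.mp hf
    obtain ⟨hgB, hg⟩ := lt_iSup_iff.mp hg
    obtain ⟨hfg, hlt⟩ := lt_iSup_iff.mp hg
    rw [mem_closedBall_zero_iff] at hfB hgB
    set h : X := (1 / 2 : ℝ) • (f - g) with hdef
    have hh1 : ‖h‖ ≤ 1 := by
      rw [hdef, norm_smul]
      have := norm_sub_le f g
      have h12 : ‖(1 / 2 : ℝ)‖ = 1 / 2 := by norm_num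
      rw [h12]
      linarith
    have hh2 : r < ‖S h‖ := by
      have e1 : ‖S f - S g‖ₑ / 2 = ENNReal.ofReal ‖S h‖ := by
        have e0 : ‖S h‖ = ‖S f - S g‖ / 2 := by
          rw [hdef, map_smul, map_sub, norm_smul]
          norm_num
          ring
        rw [e0, ENNReal.ofReal_div_of_pos (by norm_num), ofReal_norm]
        norm_num
      rw [e1] at hlt
      exact (ENNReal.ofReal_lt_ofReal_iff_of_nonneg hr).mp hlt
    have hh3 : ∀ k < m, ⟪x k, h⟫_ℝ = 0 := by
      intro k hk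
      have hk' : k < n - 1 := by omega
      have := hfg ⟨k, hk'⟩
      simp only [L, hk, if_true] at this
      rw [hdef, inner_smul_right, inner_sub_right]
      have e2 : ⟪x k, f⟫_ℝ = ⟪x k, g⟫_ℝ := this
      rw [e2, sub_self, mul_zero]
    obtain ⟨φ, hφ1, hφ2⟩ := exists_dual_vector'' ℝ (S h)
    -- Riesz representative
    set w : X := (InnerProductSpace.toDual ℝ X).symm (φ.comp S) with hw
    have hwz : ∀ z, ⟪w, z⟫_ℝ = φ (S z) := by
      intro z
      rw [hw, InnerProductSpace.toDual_symm_apply]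
      rfl
    set u : X := w - ∑ k ∈ Finset.range m, ⟪x k, w⟫_ℝ • x k with hu
    have huz : ∀ z, (∀ k < m, ⟪x k, z⟫_ℝ = 0) → ⟪u, z⟫_ℝ = φ (S z) := by
      intro z hz
      rw [hu, inner_sub_left, sum_inner, hwz, Finset.sum_eq_zero, sub_zero]
      intro k hk
      rw [inner_smul_left, hz k (Finset.mem_range.mp hk), mul_zero]
    have hux : ∀ j < m, ⟪x j, u⟫_ℝ = 0 := by
      intro j hj
      rw [hu, inner_sub_right, inner_sum]
      have : ∀ k ∈ Finset.range m, ⟪x j, ⟪x k, w⟫_ℝ • x k⟫_ℝ =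
          if j = k then ⟪x k, w⟫_ℝ else 0 := by
        intro k hk
        rw [inner_smul_right, h1 j hj k (Finset.mem_range.mp hk)]
        split_ifs <;> simp
      rw [Finset.sum_congr rfl this, Finset.sum_ite_eq, if_pos (Finset.mem_range.mpr hj),
        sub_self]
    have huh : r < ‖u‖ := by
      have e1 : ⟪u, h⟫_ℝ = ‖S h‖ := by
        rw [huz h hh3, hφ2]
        rfl
      have e2 : ⟪u, h⟫_ℝ ≤ ‖u‖ * ‖h‖ := real_inner_le_norm u h
      nlinarith [norm_nonneg u]
    have hupos : 0 < ‖u‖ := lt_of_le_of_lt hr huh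
    have hxm : ∀ z, ⟪(‖u‖⁻¹ • u : X), z⟫_ℝ = ‖u‖⁻¹ * ⟪u, z⟫_ℝ := by
      intro z
      rw [inner_smul_left]
      rfl
    refine ⟨Function.update x m (‖u‖⁻¹ • u), Function.update y m φ, ?_, ?_, ?_, ?_⟩
    · intro i hi j hj
      rcases Nat.lt_succ_iff_lt_or_eq.mp hi with hi' | rfl <;>
        rcases Nat.lt_succ_iff_lt_or_eq.mp hj with hj' | rfl
      · rw [Function.update_of_ne hi'.ne, Function.update_of_ne hj'.ne]
        exact h1 i hi' j hj'
      · rw [Function.update_of_ne hi'.ne, Function.update_self, inner_smul_right,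
          hux i hi', mul_zero, if_neg hi'.ne]
      · rw [Function.update_of_ne hj'.ne, Function.update_self, inner_smul_left,
          real_inner_comm, hux j hj', mul_zero, if_neg hj'.ne']
      · rw [Function.update_self, inner_smul_left, inner_smul_right, real_inner_self_eq_norm_sq,
          if_pos rfl]
        simp only [conj_trivial]
        field_simp
    · intro i hi
      rcases Nat.lt_succ_iff_lt_or_eq.mp hi with hi' | rfl
      · rw [Function.update_of_ne hi'.ne]
        exact h2 i hi'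
      · rw [Function.update_self]
        exact hφ1
    · intro i hi
      rcases Nat.lt_succ_iff_lt_or_eq.mp hi with hi' | rfl
      · rw [Function.update_of_ne hi'.ne, Function.update_of_ne hi'.ne]
        exact h3 i hi'
      · rw [Function.update_self, Function.update_self, map_smul, map_smul, ← huz u hux,
          real_inner_self_eq_norm_sq, smul_eq_mul]
        have : ‖u‖⁻¹ * ‖u‖ ^ 2 = ‖u‖ := by
          field_simp
        rw [this]
        exact huh.le
    · intro i hi z hz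
      rcases Nat.lt_succ_iff_lt_or_eq.mp hi with hi' | rfl
      · rw [Function.update_of_ne hi'.ne]
        apply h4 i hi' z
        intro j hj
        have := hz j hj
        rwa [Function.update_of_ne (by omega)] at this
      · rw [Function.update_self]
        have hz1 : ∀ k < i, ⟪x k, z⟫_ℝ = 0 := by
          intro k hk
          have := hz k hk.le
          rwa [Function.update_of_ne hk.ne] at this
        rw [← huz z hz1]
        have := hz i le_rfl
        rw [Function.update_self, hxm] at this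
        rcases mul_eq_zero.mp this with h | h
        · exact absurd (inv_eq_zero.mp h) hupos.ne'
        · exact h

theorem exists_J (n : ℕ) : ∃ J : EuclideanSpace ℝ (Fin n) →ₗᵢ[ℝ] Ltwo, True := by
  let b := EuclideanSpace.basisFun (Fin n) ℝ
  let e : Fin n → Ltwo := fun i => lp.single 2 (i : ℕ) (1 : ℝ)
  have he : Orthonormal ℝ e := by
    rw [orthonormal_iff_ite]
    intro i j
    show ⟪(lp.single 2 (i : ℕ) (1 : ℝ) : Ltwo), lp.single 2 (j : ℕ) (1 : ℝ)⟫_ℝ = _
    rw [lp.inner_single_left, lp.single_apply]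
    by_cases h : i = j
    · subst h
      simp
    · have : (i : ℕ) ≠ (j : ℕ) := fun h' => h (Fin.ext h')
      simp [h, this]
  have h2 : Orthonormal ℝ ((b.toBasis.constr ℝ e) ∘ b.toBasis) := by
    have : ((b.toBasis.constr ℝ e) ∘ b.toBasis) = e := by
      funext i
      exact b.toBasis.constr_basis ℝ e i
    rw [this]
    exact he
  have h3 : Orthonormal ℝ b.toBasis := by simp
  exact ⟨LinearMap.isometryOfOrthonormal (b.toBasis.constr ℝ e) h3 h2, trivial⟩

theorem main_bound (S : X →L[ℝ] Y) (n : ℕ) (hn : 1 ≤ n) (r : ℝ) (hr : 0 ≤ r)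
    (hc : ENNReal.ofReal r < gelfand (n - 1) S (closedBall (0 : X) 1)) :
    ENNReal.ofReal ((r / Real.sqrt n) ^ n) ≤
      ∏ k ∈ Finset.range n, hilbertNum k S (closedBall (0 : X) 1) := by
  obtain ⟨x, y, h1, h2, h3, h4⟩ := exists_triangular S n r hr hc n le_rfl
  obtain ⟨J, -⟩ := exists_J n
  have hn0 : (0 : ℝ) < n := by exact_mod_cast hn
  have hsn : 0 < Real.sqrt n := Real.sqrt_pos.mpr hn0
  let b := EuclideanSpace.basisFun (Fin n) ℝ
  have hb3 : Orthonormal ℝ b.toBasis := by simp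
  -- the isometry into `X`
  have hx : Orthonormal ℝ (fun i : Fin n => x i) := by
    rw [orthonormal_iff_ite]
    intro i j
    rw [h1 i i.2 j j.2]
    simp [Fin.ext_iff]
  have hAX2 : ((b.toBasis.constr ℝ (fun i : Fin n => x i)) ∘ b.toBasis) =
      (fun i : Fin n => x i) := by
    funext i
    exact b.toBasis.constr_basis ℝ (fun i : Fin n => x i) i
  let AX : EuclideanSpace ℝ (Fin n) →ₗᵢ[ℝ] X :=
    LinearMap.isometryOfOrthonormal (b.toBasis.constr ℝ (fun i : Fin n => x i)) hb3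
      (by rw [hAX2]; exact hx)
  have hAX : ∀ i, AX (b.toBasis i) = x i := fun i => congrFun hAX2 i
  -- the map from `Y`
  let BY : Y →L[ℝ] EuclideanSpace ℝ (Fin n) :=
    ((PiLp.continuousLinearEquiv 2 ℝ (fun _ : Fin n => ℝ)).symm :
      (Fin n → ℝ) →L[ℝ] EuclideanSpace ℝ (Fin n)).comp
      (ContinuousLinearMap.pi (fun i : Fin n => (1 / Real.sqrt n) • y i))
  have hBYa : ∀ t i, BY t i = (1 / Real.sqrt n) * y i t := fun t i => rfl
  have hBYn : ‖BY‖ ≤ 1 := by
    apply ContinuousLinearMap.opNorm_le_bound _ zero_le_one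
    intro t
    rw [one_mul, ← Real.sqrt_sq (norm_nonneg (BY t)), ← Real.sqrt_sq (norm_nonneg t)]
    apply Real.sqrt_le_sqrt
    rw [EuclideanSpace.norm_sq_eq]
    calc ∑ i, ‖BY t i‖ ^ 2 ≤ ∑ _i : Fin n, (1 / (n : ℝ)) * ‖t‖ ^ 2 := by
          apply Finset.sum_le_sum
          intro i _
          rw [hBYa, norm_mul, mul_pow, norm_div, norm_one, Real.norm_eq_abs, abs_of_pos hsn,
            div_pow, one_pow, Real.sq_sqrt hn0.le]
          have h5 : ‖y i t‖ ≤ ‖t‖ := by
            refine le_trans ((y i).le_opNorm t) ?_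
            calc ‖y i‖ * ‖t‖ ≤ 1 * ‖t‖ := by
                  gcongr
                  exact h2 i i.2
              _ = ‖t‖ := one_mul _
          gcongr
      _ = ‖t‖ ^ 2 := by
          rw [Finset.sum_const, Finset.card_univ, Fintype.card_fin, nsmul_eq_mul]
          field_simp
  let Jc : EuclideanSpace ℝ (Fin n) →L[ℝ] Ltwo := J.toContinuousLinearMap
  let Js : Ltwo →L[ℝ] EuclideanSpace ℝ (Fin n) := ContinuousLinearMap.adjoint Jc
  have hJs : ∀ v, Js (J v) = v := by
    intro v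
    apply ext_inner_left ℝ
    intro u
    rw [ContinuousLinearMap.adjoint_inner_right]
    exact J.inner_map_map u v
  have hJsn : ‖Js‖ ≤ 1 := by
    rw [LinearIsometryEquiv.norm_map]
    exact J.norm_toContinuousLinearMap_le
  let A : Ltwo →L[ℝ] X := (AX.toContinuousLinearMap).comp Js
  let B : Y →L[ℝ] Ltwo := Jc.comp BY
  have hA : ∀ z ∈ closedBall (0 : Ltwo) 1, A z + 0 ∈ closedBall (0 : X) 1 := by
    intro z hz
    rw [mem_closedBall_zero_iff] at hz
    rw [add_zero, mem_closedBall_zero_iff]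
    show ‖AX (Js z)‖ ≤ 1
    rw [AX.norm_map]
    refine le_trans (Js.le_opNorm z) ?_
    calc ‖Js‖ * ‖z‖ ≤ 1 * 1 := by gcongr
      _ = 1 := one_mul _
  have hB : ‖B‖ ≤ 1 := by
    refine le_trans (Jc.opNorm_comp_le BY) ?_
    have hJc : ‖Jc‖ ≤ 1 := J.norm_toContinuousLinearMap_le
    calc ‖Jc‖ * ‖BY‖ ≤ 1 * 1 := by gcongr
      _ = 1 := one_mul _
  let f : EuclideanSpace ℝ (Fin n) →ₗ[ℝ] EuclideanSpace ℝ (Fin n) :=
    (BY.toLinearMap.comp (S.toLinearMap.comp AX.toLinearMap))
  have hT : ∀ v, (B.comp (S.comp A)) (J v) = J (f v) := by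
    intro v
    show J (BY (S (AX (Js (J v))))) = J (BY (S (AX v)))
    rw [hJs]
  have hdet : LinearMap.det f = ∏ i : Fin n, (1 / Real.sqrt n) * y i (S (x i)) := by
    rw [← LinearMap.det_toMatrix b.toBasis f, Matrix.det_of_isLowerTriangular]
    · apply Finset.prod_congr rfl
      intro i _
      rw [LinearMap.toMatrix_apply]
      show b.toBasis.repr (BY (S (AX (b.toBasis i)))) i = _
      rw [hAX, OrthonormalBasis.coe_toBasis_repr_apply, EuclideanSpace.basisFun_repr, hBYa]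
    · intro i j hij
      rw [LinearMap.toMatrix_apply]
      show b.toBasis.repr (BY (S (AX (b.toBasis j)))) i = _
      rw [hAX, OrthonormalBasis.coe_toBasis_repr_apply, EuclideanSpace.basisFun_repr, hBYa]
      have hij' : i < j := hij
      rw [h4 i i.2 (x j), mul_zero]
      intro l hl
      have hl' : l < n := lt_of_le_of_lt hl i.2
      rw [h1 l hl' j j.2, if_neg]
      have : (i : ℕ) < (j : ℕ) := hij'
      omega
  have hge : (r / Real.sqrt n) ^ n ≤ |LinearMap.det f| := by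
    rw [hdet]
    calc (r / Real.sqrt n) ^ n = ∏ _i : Fin n, (r / Real.sqrt n) := by
          rw [Finset.prod_const, Finset.card_univ, Fintype.card_fin]
      _ ≤ ∏ i : Fin n, (1 / Real.sqrt n) * y i (S (x i)) := by
          apply Finset.prod_le_prod
          · intro i _
            positivity
          · intro i _
            rw [div_eq_mul_one_div, mul_comm]
            have := h3 i i.2
            gcongr
      _ ≤ _ := le_abs_self _
  calc ENNReal.ofReal ((r / Real.sqrt n) ^ n) ≤ ENNReal.ofReal |LinearMap.det f| :=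
        ENNReal.ofReal_le_ofReal hge
    _ ≤ ∏ k ∈ Finset.range n, gelfand k (B.comp (S.comp A)) (closedBall (0 : Ltwo) 1) :=
        det_le_gelfand _ f J hT
    _ ≤ ∏ k ∈ Finset.range n, hilbertNum k S (closedBall (0 : X) 1) := by
        apply Finset.prod_le_prod'
        intro k _
        unfold hilbertNum
        refine le_trans ?_ (le_iSup₂ (f := fun (B : Y →L[ℝ] Ltwo) (_ : ‖B‖ ≤ 1) =>
          ⨆ (A : Ltwo →L[ℝ] X) (x ∈ closedBall (0 : X) 1)
          (_ : ∀ z ∈ closedBall (0 : Ltwo) 1, A z + x ∈ closedBall (0 : X) 1),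
          gelfand k (B.comp (S.comp A)) (closedBall (0 : Ltwo) 1)) B hB)
        refine le_trans ?_ (le_iSup (f := fun (A : Ltwo →L[ℝ] X) =>
          ⨆ (x ∈ closedBall (0 : X) 1)
          (_ : ∀ z ∈ closedBall (0 : Ltwo) 1, A z + x ∈ closedBall (0 : X) 1),
          gelfand k (B.comp (S.comp A)) (closedBall (0 : Ltwo) 1)) A)
        refine le_trans ?_ (le_iSup₂ (f := fun (x : X) (_ : x ∈ closedBall (0 : X) 1) =>
          ⨆ (_ : ∀ z ∈ closedBall (0 : Ltwo) 1, A z + x ∈ closedBall (0 : X) 1),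
          gelfand k (B.comp (S.comp A)) (closedBall (0 : Ltwo) 1)) 0 (by simp))
        exact le_iSup (f := fun (_ : ∀ z ∈ closedBall (0 : Ltwo) 1,
          A z + 0 ∈ closedBall (0 : X) 1) =>
          gelfand k (B.comp (S.comp A)) (closedBall (0 : Ltwo) 1)) hA

end triangular

/-- For every bounded operator `S` from a real Hilbert space `X` into a real Banach space `Y` and
every `n ≥ 1`, `c_{n-1}(S, B_X) ≤ n^{1/2} (∏_{k<n} h_k(S, B_X))^{1/n}`. -/
theorem result (X Y : Type*) [NormedAddCommGroup X] [InnerProductSpace ℝ X] [CompleteSpace X]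
    [NormedAddCommGroup Y] [NormedSpace ℝ Y] [CompleteSpace Y] (S : X →L[ℝ] Y) (n : ℕ)
    (hn : 1 ≤ n) :
    gelfand (n - 1) S (closedBall (0 : X) 1) ≤
      (n : ℝ≥0∞) ^ (1 / 2 : ℝ) *
        (∏ k ∈ Finset.range n, hilbertNum k S (closedBall (0 : X) 1)) ^ (1 / (n : ℝ)) := by
  have hn0 : (0 : ℝ) < n := by exact_mod_cast hn
  have hsn : 0 < Real.sqrt n := Real.sqrt_pos.mpr hn0
  apply le_of_forall_lt
  intro c hc
  obtain ⟨c', hcc', hc'⟩ := exists_between hc
  refine lt_of_lt_of_le hcc' ?_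
  have hfin : c' ≠ ∞ := hc'.ne_top
  have hc2 : ENNReal.ofReal c'.toReal = c' := ENNReal.ofReal_toReal hfin
  rw [← hc2] at hc' ⊢
  have h := main_bound S n hn c'.toReal ENNReal.toReal_nonneg hc'
  have h5 := ENNReal.rpow_le_rpow h (by positivity : (0 : ℝ) ≤ 1 / n)
  have h6 : ENNReal.ofReal ((c'.toReal / Real.sqrt n) ^ n) ^ (1 / (n : ℝ)) =
      ENNReal.ofReal (c'.toReal / Real.sqrt n) := by
    rw [ENNReal.ofReal_pow (by positivity), ← ENNReal.rpow_natCast, ← ENNReal.rpow_mul]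
    rw [mul_one_div_cancel hn0.ne', ENNReal.rpow_one]
  rw [h6] at h5
  have h7 : ENNReal.ofReal c'.toReal =
      (n : ℝ≥0∞) ^ (1 / 2 : ℝ) * ENNReal.ofReal (c'.toReal / Real.sqrt n) := by
    have h8 : (n : ℝ≥0∞) ^ (1 / 2 : ℝ) = ENNReal.ofReal (Real.sqrt n) := by
      rw [Real.sqrt_eq_rpow, ← ENNReal.ofReal_rpow_of_pos hn0, ENNReal.ofReal_natCast]
    rw [h8, ← ENNReal.ofReal_mul hsn.le]
    congr 1
    field_simp
  rw [h7]
  gcongr

end Pool.Agent.Results.MP_93c8fe_an.HilbertDomain
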